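import Pool.Agent.U580.ETB

set_option autoImplicit false

/-!
# MP_12a1af_nt: bounded representation functions have energy on every arc

Let `A` be an infinite set of natural numbers with `a_n ≤ C n²` and `r_A ≤ K`.  Then the generating
function of `r_A`, and of every function close to `r_A` in mean square, has a positive proportion
of its `L²` mass on every arc; the proportion depends only on `C`, `K` and the arc.  Hence `r_A` is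
unbounded if `a_n ≤ C n²` and `r_A` is a limit, in mean square, of functions with no energy on one
fixed arc.
-/

open Filter Topology MeasureTheory Finset

namespace Pool.Agent.Results.MP_12a1af_nt.EveryArc

/-- `r_A(n)`: the number of ordered pairs `(a, b) ∈ A × A` with `a + b = n`. -/
noncomputable def rep (A : Set ℕ) (n : ℕ) : ℕ :=
  Set.ncard {p : ℕ × ℕ | p.1 ∈ A ∧ p.2 ∈ A ∧ p.1 + p.2 = n}

/-- `elt A n` is the `n`-th element `a_n` (`n ≥ 1`) of the infinite set `A` listed increasingly. -/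
noncomputable def elt (A : Set ℕ) (n : ℕ) : ℕ := Nat.nth (· ∈ A) (n - 1)

/-- The energy of `P` on an arc: the integral of `|∑_n P(n) ρ^n e^{inθ}|²` over the
`θ ∈ (0, 2π]` with `|e^{iθ} - ζ| < δ`. -/
noncomputable def arcEnergy (P : ℕ → ℂ) (ζ : ℂ) (δ ρ : ℝ) : ℝ :=
  ∫ θ in {θ : ℝ | θ ∈ Set.Ioc 0 (2 * Real.pi) ∧ ‖Complex.exp (θ * Complex.I) - ζ‖ < δ},
    ‖∑' n : ℕ, P n * (ρ * Complex.exp (θ * Complex.I)) ^ n‖ ^ 2

/-- `P` has no energy on the arc `{|z| = 1, |z - ζ| < δ}`, along some radii `ρ → 1`: for every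
`ε > 0` there are `ρ < 1` arbitrarily close to `1` with `(1 - ρ) arcEnergy P ζ δ ρ ≤ ε`. -/
def NoEnergy (P : ℕ → ℂ) (ζ : ℂ) (δ : ℝ) : Prop :=
  ∀ ε : ℝ, 0 < ε → ∃ᶠ ρ : ℝ in 𝓝[<] 1, (1 - ρ) * arcEnergy P ζ δ ρ ≤ ε

theorem uniform (C : ℝ) (K : ℕ) (ζ : ℂ) (δ : ℝ) (hζ : ‖ζ‖ = 1) (hδ : 0 < δ) :
    ∃ c : ℝ, 0 < c ∧ ∀ A : Set ℕ, A.Infinite →
      (∀ n : ℕ, 1 ≤ n → (elt A n : ℝ) ≤ C * (n : ℝ) ^ 2) → (∀ n, rep A n ≤ K) →
      (∀ᶠ ρ : ℝ in 𝓝[<] 1, ∀ P : ℕ → ℂ,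
        (∀ s : ℝ, 0 ≤ s → s < 1 → Summable fun n : ℕ => ‖P n‖ * s ^ n) →
        c ≤ (1 - ρ) * (arcEnergy P ζ δ ρ +
          ∑' n : ℕ, ‖(rep A n : ℂ) - P n‖ ^ 2 * ρ ^ (2 * n))) ∧
      (∀ P : ℕ → ℂ, NoEnergy P ζ δ →
        ∃ᶠ N : ℕ in atTop, c * N < ∑ n ∈ range N, ‖(rep A n : ℂ) - P n‖ ^ 2) := by
  obtain ⟨c, hc, H⟩ := Pool.Agent.U580.ET.gap_main C K hζ hδ
  refine ⟨c, hc, fun A hA hq hK => ?_⟩
  have H1 := H A hA (fun n => ?_) (fun n => hK n)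
  · refine ⟨?_, fun P hP => H1.2 P hP⟩
    filter_upwards [H1.1] with ρ hρ P hP
    have h2 := hρ P hP
    simp_rw [pow_mul]
    exact h2
  · have h1 := hq (n + 1) (by omega)
    unfold elt at h1
    rw [Nat.add_sub_cancel] at h1
    push_cast at h1
    exact h1

/-- (1) For all `C`, `K` and every arc `{|z| = 1, |z - ζ| < δ}` (`|ζ| = 1`, `δ > 0`) there is
`c > 0` such that for every infinite `A ⊆ ℕ` with `a_n ≤ C n²` for all `n ≥ 1` and `r_A ≤ K`: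
(a) for all `ρ < 1` close enough to `1` and all `P : ℕ → ℂ` whose power series converges absolutely
in the open unit disc, `(1 - ρ) (arcEnergy P ζ δ ρ + ∑_n |r_A(n) - P(n)|² ρ^{2n}) ≥ c`;
(b) in particular (`P = r_A`) `(1 - ρ) arcEnergy r_A ζ δ ρ ≥ c` for all `ρ < 1` close to `1`;
(c) every `P : ℕ → ℂ` with no energy on the arc has `∑_{n<N} |r_A(n) - P(n)|² > c N` for
arbitrarily large `N`.

(2) Hence `r_A` is unbounded for every infinite `A ⊆ ℕ` with `a_n ≤ C n²` (`n ≥ 1`) for some `C`,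
for which there is an arc such that, for every `c > 0`, some `P : ℕ → ℂ` with no energy on the arc
satisfies `∑_{n<N} |r_A(n) - P(n)|² ≤ c N` for all large `N`. -/
theorem result :
    (∀ (C : ℝ) (K : ℕ) (ζ : ℂ) (δ : ℝ), ‖ζ‖ = 1 → 0 < δ → ∃ c : ℝ, 0 < c ∧
      ∀ A : Set ℕ, A.Infinite →
        (∀ n : ℕ, 1 ≤ n → (elt A n : ℝ) ≤ C * (n : ℝ) ^ 2) → (∀ n, rep A n ≤ K) →
        (∀ᶠ ρ : ℝ in 𝓝[<] 1, ∀ P : ℕ → ℂ,
          (∀ s : ℝ, 0 ≤ s → s < 1 → Summable fun n : ℕ => ‖P n‖ * s ^ n) →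
          c ≤ (1 - ρ) * (arcEnergy P ζ δ ρ +
            ∑' n : ℕ, ‖(rep A n : ℂ) - P n‖ ^ 2 * ρ ^ (2 * n))) ∧
        (∀ᶠ ρ : ℝ in 𝓝[<] 1, c ≤ (1 - ρ) * arcEnergy (fun n => (rep A n : ℂ)) ζ δ ρ) ∧
        (∀ P : ℕ → ℂ, NoEnergy P ζ δ →
          ∃ᶠ N : ℕ in atTop, c * N < ∑ n ∈ range N, ‖(rep A n : ℂ) - P n‖ ^ 2)) ∧
    (∀ A : Set ℕ, A.Infinite → (∃ C : ℝ, ∀ n : ℕ, 1 ≤ n → (elt A n : ℝ) ≤ C * (n : ℝ) ^ 2) →
      (∃ (ζ : ℂ) (δ : ℝ), ‖ζ‖ = 1 ∧ 0 < δ ∧ ∀ c : ℝ, 0 < c → ∃ P : ℕ → ℂ, NoEnergy P ζ δ ∧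
        ∀ᶠ N : ℕ in atTop, ∑ n ∈ range N, ‖(rep A n : ℂ) - P n‖ ^ 2 ≤ c * N) →
      ∀ K : ℕ, ∃ n : ℕ, K < rep A n) := by
  constructor
  · intro C K ζ δ hζ hδ
    obtain ⟨c, hc, H⟩ := uniform C K ζ δ hζ hδ
    refine ⟨c, hc, fun A hA hq hK => ?_⟩
    obtain ⟨H1, H2⟩ := H A hA hq hK
    refine ⟨H1, ?_, H2⟩
    filter_upwards [H1] with ρ hρ
    have h1 := hρ (fun n => (rep A n : ℂ)) (fun s h0 h1 => by
      refine Summable.of_nonneg_of_le (fun n => by positivity) (fun n => ?_)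
        ((summable_geometric_of_lt_one h0 h1).mul_left (K : ℝ))
      apply mul_le_mul_of_nonneg_right _ (by positivity)
      rw [Complex.norm_natCast]
      exact_mod_cast hK n)
    simpa using h1
  · intro A hA hC h K
    by_contra hcon
    push Not at hcon
    obtain ⟨C, hC⟩ := hC
    obtain ⟨ζ, δ, hζ, hδ, h⟩ := h
    obtain ⟨c, hc, H⟩ := uniform C K ζ δ hζ hδ
    obtain ⟨P, hP1, hP2⟩ := h c hc
    have h2 := (H A hA hC hcon).2 P hP1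
    obtain ⟨N, hN1, hN2⟩ := (h2.and_eventually hP2).exists
    linarith

end Pool.Agent.Results.MP_12a1af_nt.EveryArc
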