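import Pool.Agent.U204.UN.Main

/-!
# MP_12a1af_nt: bounded representation functions are far from periodic functions and predictors

`rep A h n` is the number `r_{A,h}(n)` of ordered `h`-tuples of elements of `A` with sum `n` (so
`rep A 2 n = r_A(n)`), and `elt A n` is the `n`-th element `a_n` of `A`, `n ≥ 1`.

Let `a_n ≤ C n ^ h` and `r_{A,h} ≤ K` (for `h = 2` this is the negation of Q2). Then at EVERY scale
`N ≥ N₀` the translates of `r_{A,h}` by any `s` different numbers at most `ε N` are linearly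
independent in a strong sense; `r_{A,h}` is far from all solutions of linear relations with `s` terms,
in particular from all sums of `s` functions with arbitrary periods at most `ε N`; and it is far from
all its linear predictors of bounded weight with infinite memory. The numbers `ε` and `N₀` depend only
on `h`, `C`, `K`, `s` and the weight.

Method: the moments of the generating function `f` of `A` on circles show that no set of angles of
small measure carries most of the mean of `|f| ^ (2 h)`. Exponential sums with few terms and arbitrary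
frequencies, and analytic functions with bounded coefficients and `|b_0| ≥ 1` (Jensen), are small only on
sets of small measure, uniformly in the frequencies and coefficients. The growth condition gives all
scales.
-/

set_option autoImplicit false

namespace Pool.Agent.Results.MP_12a1af_nt.FarFromPeriodic

open Finset

/-- `r_{A,h}(n)`: the number of ordered `h`-tuples of elements of `A` with sum `n`. -/
noncomputable def rep (A : Set ℕ) (h n : ℕ) : ℕ :=
  {v : Fin h → ℕ | (∀ i, v i ∈ A) ∧ ∑ i, v i = n}.ncard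

/-- `elt A n` is the `n`-th element `a_n` (`n ≥ 1`) of the infinite set `A` listed increasingly. -/
noncomputable def elt (A : Set ℕ) (n : ℕ) : ℕ := Nat.nth (· ∈ A) (n - 1)

theorem rep_eq (A : Set ℕ) (h n : ℕ) : rep A h n = Pool.Agent.U204.RF.r A h n := by
  unfold rep Pool.Agent.U204.RF.r
  rw [← Set.ncard_image_of_injective _ (List.ofFn_injective (α := ℕ) (n := h)),
    ← Set.ncard_coe_finset]
  congr 1
  ext l
  simp only [Set.mem_image, Set.mem_ofPred_eq, Finset.mem_coe, Pool.Agent.U204.RF.mem_L]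
  constructor
  · rintro ⟨v, ⟨h1, h2⟩, rfl⟩
    refine ⟨List.length_ofFn, ?_, by rw [List.sum_ofFn, h2]⟩
    exact List.forall_mem_ofFn_iff.2 h1
  · rintro ⟨h1, h2, h3⟩
    subst h1
    refine ⟨l.get, ⟨fun i => h2 _ (List.get_mem l i), ?_⟩, List.ofFn_get l⟩
    rw [← List.sum_ofFn, List.ofFn_get, h3]

theorem sum_Icc_one (f : ℕ → ℝ) (n : ℕ) : ∑ u ∈ Icc 1 n, f u = ∑ i ∈ range n, f (i + 1) := by
  induction n with
  | zero => simp
  | succ n ih => rw [Finset.sum_Icc_succ_top (by omega), ih, sum_range_succ]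

theorem card_le_ncard {N : ℕ} {p q : ℕ → Prop} [DecidablePred p]
    (h : ∀ n, n < N → p n → q n) :
    ((((range N).filter p).card : ℕ) : ℝ) ≤ ({n | n < N ∧ q n}.ncard : ℝ) := by
  rw [← Set.ncard_coe_finset]
  have hsub : (((range N).filter p : Finset ℕ) : Set ℕ) ⊆ {n | n < N ∧ q n} := by
    intro n hn
    rw [Finset.mem_coe, mem_filter, mem_range] at hn
    exact ⟨hn.1, h n hn.1 hn.2⟩
  exact_mod_cast Set.ncard_le_ncard hsub ((Set.finite_lt_nat N).subset fun n hn => hn.1)

open Pool.Agent.U204.SP Pool.Agent.U204.UN in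
/-- Let `h ≥ 2`, let `C` and `S` be real and `K` and `s` natural numbers. There are `ε > 0` and `N₀` such
that for every infinite `A ⊆ ℕ` with `a_n ≤ C n ^ h` for `n ≥ 1` and `r_{A,h} ≤ K` and every `N ≥ N₀`:
(1) for every set `I` of at most `s` natural numbers `u ≤ ε N` and all real `c_u`, not all zero, at least
`ε N` of the `n` in `[ε N, N)` satisfy `|∑_{u ∈ I} c_u r_{A,h}(n - u)| ≥ ε max |c_u|`, and for every real
function `P` with `∑_{u ∈ I} c_u P(n - u) = 0` on `[ε N, N)` at least `ε N` of the `n < N` satisfy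
`|r_{A,h}(n) - P(n)| ≥ ε`; (2) for all `q_1, …, q_s` in `[1, ε N]` and all real functions `P_1, …, P_s` with
the periods `q_i` at least `ε N` of the `n < N` satisfy `|r_{A,h}(n) - ∑ P_i(n)| ≥ ε`; (3) for all real
`c_1, c_2, …` with `∑ |c_u| ≤ S` at least `ε N` of the `n < N` satisfy
`|r_{A,h}(n) - ∑_{1 ≤ u ≤ n} c_u r_{A,h}(n - u)| ≥ ε`. -/
theorem result (h : ℕ) (hh : 2 ≤ h) (C S : ℝ) (K s : ℕ) :
    ∃ (ε : ℝ) (N₀ : ℕ), 0 < ε ∧ ∀ A : Set ℕ, A.Infinite →
      (∀ n : ℕ, 1 ≤ n → (elt A n : ℝ) ≤ C * (n : ℝ) ^ h) → (∀ n, rep A h n ≤ K) →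
      ∀ N : ℕ, N₀ ≤ N →
      (∀ I : Finset ℕ, I.card ≤ s → (∀ u ∈ I, (u : ℝ) ≤ ε * N) →
        ∀ c : ℕ → ℝ, (∃ u ∈ I, c u ≠ 0) →
        ε * N ≤ ({n : ℕ | n < N ∧ ε * N ≤ (n : ℝ) ∧ ∀ v ∈ I, ε * |c v| ≤
          |∑ u ∈ I, c u * (rep A h (n - u) : ℝ)|}.ncard : ℝ) ∧
        ∀ P : ℕ → ℝ, (∀ n : ℕ, n < N → ε * N ≤ (n : ℝ) → ∑ u ∈ I, c u * P (n - u) = 0) →
          ε * N ≤ ({n : ℕ | n < N ∧ ε ≤ |(rep A h n : ℝ) - P n|}.ncard : ℝ)) ∧
      (∀ q : Fin s → ℕ, (∀ i, 1 ≤ q i ∧ (q i : ℝ) ≤ ε * N) →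
        ∀ P : Fin s → ℕ → ℝ, (∀ i n, P i (n + q i) = P i n) →
          ε * N ≤ ({n : ℕ | n < N ∧ ε ≤ |(rep A h n : ℝ) - ∑ i, P i n|}.ncard : ℝ)) ∧
      ∀ c : ℕ → ℝ, (∀ M : ℕ, ∑ u ∈ Icc 1 M, |c u| ≤ S) →
        ε * N ≤ ({n : ℕ | n < N ∧ ε ≤ |(rep A h n : ℝ) -
          ∑ u ∈ Icc 1 n, c u * (rep A h (n - u) : ℝ)|}.ncard : ℝ) := by
  classical
  obtain ⟨j, rfl⟩ : ∃ j, h = j + 2 := ⟨h - 2, by omega⟩
  have hK1 : (1 : ℝ) ≤ (K : ℝ) + 1 := by linarith [(Nat.cast_nonneg K : (0 : ℝ) ≤ K)]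
  set C' : ℝ := max C 1 with hC'
  have hC1 : 1 ≤ C' := le_max_right _ _
  set s' : ℕ := max s 1 with hs'
  have hs1 : 1 ≤ s' := le_max_right _ _
  have hss : s ≤ s' := le_max_left _ _
  have hs0 : (1 : ℝ) ≤ s' := by exact_mod_cast hs1
  obtain ⟨ε₁, N₁, hε₁, hε₁1, H₁⟩ := sparse j s' hK1 hC1
  obtain ⟨ε₂, N₂, hε₂, H₂⟩ := periodic j s hK1 hC1
  obtain ⟨ε₃, N₃, hε₃, H₃⟩ := predictor j (S := 1 + max S 0) hK1
    (by linarith [le_max_right S 0]) hC1
  set ε : ℝ := min (ε₁ / s') (min ε₂ ε₃) with hε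
  have hεa : ε ≤ ε₁ / s' := min_le_left _ _
  have hεb : ε ≤ ε₂ := (min_le_right _ _).trans (min_le_left _ _)
  have hεc : ε ≤ ε₃ := (min_le_right _ _).trans (min_le_right _ _)
  have hε0 : 0 < ε := lt_min (by positivity) (lt_min hε₂ hε₃)
  have hεd : ε ≤ ε₁ := hεa.trans (div_le_self hε₁.le hs0)
  refine ⟨ε, max N₁ (max N₂ N₃), hε0, fun A hA hg hr N hN => ?_⟩
  have hN0 : (0 : ℝ) ≤ N := Nat.cast_nonneg N
  have hg' : ∀ n : ℕ, (Nat.nth (· ∈ A) n : ℝ) ≤ C' * ((n : ℝ) + 1) ^ (j + 2) := by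
    intro n
    have h1 := hg (n + 1) (by omega)
    unfold elt at h1
    rw [Nat.add_sub_cancel] at h1
    push_cast at h1
    exact h1.trans (mul_le_mul_of_nonneg_right (le_max_left _ _) (by positivity))
  have hr' : ∀ n, rr A (j + 2) n ≤ (K : ℝ) + 1 := by
    intro n
    have h1 : (rep A (j + 2) n : ℝ) ≤ K := by exact_mod_cast hr n
    rw [rep_eq] at h1
    show (Pool.Agent.U204.RF.r A (j + 2) n : ℝ) ≤ _
    linarith
  have hrep : ∀ n, (rep A (j + 2) n : ℝ) = rr A (j + 2) n := fun n => by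
    rw [rep_eq]; rfl
  simp only [hrep]
  refine ⟨fun I hI hIN c hc => ?_, fun q hq P hP => ?_, fun c hc => ?_⟩
  · have hIN' : ∀ u ∈ I, (u : ℝ) ≤ ε₁ * N := fun u hu =>
      (hIN u hu).trans (mul_le_mul_of_nonneg_right hεd hN0)
    have key := H₁ A hA hg' hr' N ((le_max_left _ _).trans hN) I (hI.trans hss) hIN' c hc
    refine ⟨?_, fun P hP => ?_⟩
    · refine (mul_le_mul_of_nonneg_right hεd hN0).trans (key.trans ?_)
      refine card_le_ncard fun n _ hn => ⟨?_, fun v hv => ?_⟩
      · exact (mul_le_mul_of_nonneg_right hεd hN0).trans hn.1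
      · exact (mul_le_mul_of_nonneg_right hεd (abs_nonneg _)).trans (hn.2 v hv)
    · have h1 := dist_of hε₁ hs1 (hI.trans hss) hIN' hc key (P := P) fun n h2 h3 =>
        hP n h3 ((mul_le_mul_of_nonneg_right hεd hN0).trans h2)
      refine (mul_le_mul_of_nonneg_right hεa hN0).trans (h1.trans ?_)
      exact card_le_ncard fun n _ hn => hεa.trans hn
  · have h1 := H₂ A hA hg' hr' N ((le_max_left _ _).trans ((le_max_right _ _).trans hN)) q
      (fun i => ⟨(hq i).1, (hq i).2.trans (mul_le_mul_of_nonneg_right hεb hN0)⟩) P hP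
    refine (mul_le_mul_of_nonneg_right hεb hN0).trans (h1.trans ?_)
    exact card_le_ncard fun n _ hn => hεb.trans hn
  · set b : ℕ → ℝ := fun n => if n = 0 then 1 else if n ≤ N then -c n else 0 with hb
    have hb0 : b 0 = 1 := by simp [hb]
    have hbp : Pred b (1 + max S 0) := by
      refine ⟨⟨N + 1, fun n hn => ?_⟩, by rw [hb0]; simp, fun m => ?_, by
        linarith [le_max_right S 0]⟩
      · simp only [hb]
        rw [if_neg (by omega), if_neg (by omega)]
      · cases m with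
        | zero => simp; linarith [le_max_right S 0]
        | succ m =>
          rw [sum_range_succ', hb0, abs_one, add_comm]
          have h1 : ∑ i ∈ range m, |b (i + 1)| ≤ ∑ i ∈ range m, |c (i + 1)| := by
            refine sum_le_sum fun i _ => ?_
            simp only [hb]
            rw [if_neg (by omega)]
            split_ifs
            · rw [abs_neg]
            · rw [abs_zero]; exact abs_nonneg _
          have h2 := hc m
          rw [sum_Icc_one (fun u => |c u|) m] at h2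
          have h3 := le_max_left S 0
          linarith
    have h1 := H₃ A hA hg' hr' N ((le_max_right _ _).trans ((le_max_right _ _).trans hN)) b hbp
    refine (mul_le_mul_of_nonneg_right hεc hN0).trans (h1.trans ?_)
    refine card_le_ncard fun n hnN hn => hεc.trans ?_
    have h1 : Pool.Agent.U204.RF.conv b (rr A (j + 2)) n = rr A (j + 2) n -
        ∑ u ∈ Icc 1 n, c u * rr A (j + 2) (n - u) := by
      unfold Pool.Agent.U204.RF.conv
      rw [Nat.sum_antidiagonal_eq_sum_range_succ (fun i k => b i * rr A (j + 2) k) n,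
        sum_range_succ', sum_Icc_one (fun u => c u * rr A (j + 2) (n - u)) n, hb0, one_mul,
        Nat.sub_zero]
      have h2 : ∑ k ∈ range n, b (k + 1) * rr A (j + 2) (n - (k + 1)) =
          -∑ i ∈ range n, c (i + 1) * rr A (j + 2) (n - (i + 1)) := by
        rw [← sum_neg_distrib]
        refine sum_congr rfl fun i hi => ?_
        have := mem_range.1 hi
        simp only [hb]
        rw [if_neg (by omega), if_pos (by omega)]
        ring
      rw [h2]
      ring
    rw [← h1]; exact hn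

end Pool.Agent.Results.MP_12a1af_nt.FarFromPeriodic
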