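import Pool.Agent.U33.TS.Cor
import Pool.Agent.U33.TS.Transfer
import Pool.Agent.Results.MP_12a1af_nt.CircuitTradeoff

/-!
# MP_12a1af_nt: time and space needed to decide a counterexample

Let `b ≥ 2`. The `n` digits in base `b` of the numbers `x < b ^ n` are written on the tape of a
nondeterministic one-tape machine with `W` states (so it carries `log W` bits along with its head; it
may rewrite the tape, its tape alphabet is arbitrary, and its transitions may depend in an arbitrary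
way on `n`, the time and the place).

1. (every set with `b ^ (n / g)` elements below `b ^ n`) If the machine accepts within `T ≥ n` steps
   only elements of `A`, and at least `|A ∩ [0, b^n)| / K` of them, where `|A ∩ [0, b^n)|^g ≥ b^n`,
   then `r_A(m) ≥ 2 ^ f` for some `m < 2 b ^ n`, whenever `2 g (f + 1) ≤ n` and
   `(K T W) ^ (32 g^2 (f + 1) T) ≤ b ^ (n ^ 2)`. If the head movement is fixed in advance, then
   `(K W) ^ (16 g^2 (f + 1) T) ≤ b ^ (n ^ 2)` suffices.
2. Let `A` satisfy the hypothesis of Q1 or that of Q2. Then `r_A` is unbounded if, for some `b` and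
   every `ε > 0`, membership in `A` of the numbers below `b ^ n` is decided with
   `T log (T W) ≤ ε n ^ 2`, for infinitely many `n`. In other words, to decide a counterexample needs
   time times space at least `c (log N) ^ 2`, as it does for palindromes.
3. If, moreover, membership is decided, for infinitely many `n`, by machines with `W` states whose head
   movement is fixed in advance, in time `T ≤ p n`, then `r_A(m) ≥ m ^ c` for infinitely many `m`, with
   `c > 0` depending on `b`, `W`, `p` only.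

Method: cut the tape into blocks of about `n / (2 g (f + 1))` cells, with the offset for which few
passages between the blocks occur (crossing sequences). Strings with computations passing from block
to block at the same times in the same states may exchange the contents of blocks. Some class of
strings varies in `f + 1` blocks, and complementary exchanges give `2 ^ f` pairs with the same sum.
The order in which the digits are written on the tape may be any fixed permutation `σ`.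
-/

set_option autoImplicit false

namespace Pool.Agent.Results.MP_12a1af_nt.TimeSpaceTradeoff

open Filter Pool.Agent.U33.TS

/-- `r_A(n)`: the number of ordered pairs `(a, b) ∈ A × A` with `a + b = n` -/
noncomputable def r (A : Set ℕ) (n : ℕ) : ℕ :=
  {p : ℕ × ℕ | p.1 ∈ A ∧ p.2 ∈ A ∧ p.1 + p.2 = n}.ncard

/-- the hypothesis of Q1, or the hypothesis of Q2 -/
def Hyp (A : Set ℕ) : Prop :=
  (∀ᶠ x in atTop, 1 ≤ r A x) ∨
  (A.Infinite ∧ ∃ C : ℕ, ∀ n, Nat.nth (· ∈ A) n ≤ C * (n + 1) ^ 2)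

theorem rep_le (A : Set ℕ) (n : ℕ) : rep A 2 n ≤ r A n := by
  classical
  have hfin : {p : ℕ × ℕ | p.1 ∈ A ∧ p.2 ∈ A ∧ p.1 + p.2 = n}.Finite := by
    apply Set.Finite.subset (Finset.finite_toSet
      (Finset.range (n + 1) ×ˢ Finset.range (n + 1)))
    rintro p ⟨_, _, hp⟩
    rw [Finset.mem_coe, Finset.mem_product, Finset.mem_range, Finset.mem_range]
    omega
  have h1 : ∀ s : Multiset ℕ, ∃ p : ℕ × ℕ, Multiset.card s = 2 → s = {p.1, p.2} := by
    intro s
    by_cases hs : Multiset.card s = 2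
    · obtain ⟨a, b, h⟩ := Multiset.card_eq_two.1 hs
      exact ⟨(a, b), fun _ => h⟩
    · exact ⟨(0, 0), fun h => absurd h hs⟩
  choose F hF using h1
  unfold rep r
  refine Set.ncard_le_ncard_of_injOn F ?_ ?_ hfin
  · rintro s ⟨hs1, hs2, hs3⟩
    have h2 := hF s hs1
    have h3 : (F s).1 ∈ ({(F s).1, (F s).2} : Multiset ℕ) := by simp
    have h4 : (F s).2 ∈ ({(F s).1, (F s).2} : Multiset ℕ) := by simp
    rw [← h2] at h3 h4
    refine ⟨hs2 _ h3, hs2 _ h4, ?_⟩
    have h5 : ({(F s).1, (F s).2} : Multiset ℕ).sum = n := by rw [← h2, hs3]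
    simpa using h5
  · rintro s ⟨hs1, _⟩ t ⟨ht1, _⟩ hst
    rw [hF s hs1, hF t ht1, hst]

theorem eventually_cube {A : Set ℕ} (hA : Hyp A) {b : ℕ} (hb : 2 ≤ b) :
    ∀ᶠ n : ℕ in atTop, b ^ n ≤ ((A ∩ Set.Iio (b ^ n)).ncard) ^ 3 := by
  obtain ⟨c, hc, h1⟩ := Pool.Agent.Results.MP_12a1af_nt.CircuitTradeoff.count_of_thick hA
  have htend : Tendsto (fun n : ℕ => b ^ n) atTop atTop :=
    tendsto_pow_atTop_atTop_of_one_lt (by omega)
  have h2 := htend.eventually h1
  have h3 : ∀ᶠ n : ℕ in atTop, 1 / c ^ 3 ≤ ((b ^ n : ℕ) : ℝ) ^ (1 / 2 : ℝ) :=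
    htend.eventually (((tendsto_rpow_atTop (by norm_num : (0 : ℝ) < 1 / 2)).comp
      tendsto_natCast_atTop_atTop).eventually_ge_atTop _)
  filter_upwards [h2, h3] with n hn1 hn2
  set N : ℕ := b ^ n with hN
  have hN0 : (0 : ℝ) < N := by
    have : 0 < b ^ n := by positivity
    exact_mod_cast this
  have h4 : (N : ℝ) ≤ (c * (N : ℝ) ^ (1 / 2 : ℝ)) ^ 3 := by
    have h5 : (c * (N : ℝ) ^ (1 / 2 : ℝ)) ^ 3 =
        c ^ 3 * (N : ℝ) ^ (1 / 2 : ℝ) * ((N : ℝ) ^ (1 / 2 : ℝ) * (N : ℝ) ^ (1 / 2 : ℝ)) := by ring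
    rw [h5, ← Real.rpow_add hN0]
    norm_num only
    rw [Real.rpow_one]
    have hn2' : 1 / c ^ 3 ≤ (N : ℝ) ^ (1 / 2 : ℝ) := by simpa using hn2
    rw [div_le_iff₀ (by positivity)] at hn2'
    nlinarith
  have h5 : (N : ℝ) ≤ ((A ∩ Set.Iio N).ncard : ℝ) ^ 3 := by
    refine h4.trans (pow_le_pow_left₀ (by positivity) ?_ 3)
    exact hn1
  exact_mod_cast h5

theorem result :
    -- 1. sets with `b ^ (n / g)` elements below `b ^ n`
    (∀ (A : Set ℕ) (b n W T f K g : ℕ) (σ : Equiv.Perm (Fin n)) (M : Machine b W),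
      2 ≤ b → 1 ≤ g → (∀ d, M.Accepts σ T d → val d ∈ A) →
      b ^ n ≤ ((A ∩ Set.Iio (b ^ n)).ncard) ^ g →
      (A ∩ Set.Iio (b ^ n)).ncard ≤ K * {d | M.Accepts σ T d}.ncard →
      2 * g * (f + 1) ≤ n → n ≤ T →
      ((K * T * W) ^ (32 * g ^ 2 * (f + 1) * T) ≤ b ^ (n ^ 2) ∨
        (M.Oblivious ∧ (K * W) ^ (16 * g ^ 2 * (f + 1) * T) ≤ b ^ (n ^ 2))) →
      ∃ m < 2 * b ^ n, 2 ^ f ≤ r A m) ∧
    -- 2. time times space below `(log N) ^ 2`
    (∀ (A : Set ℕ) (b : ℕ), Hyp A → 2 ≤ b →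
      (∀ ε : ℝ, 0 < ε → ∃ᶠ n : ℕ in atTop, ∃ (W T : ℕ) (σ : Equiv.Perm (Fin n))
        (M : Machine b W), n ≤ T ∧ (T : ℝ) * Real.log (T * W) ≤ ε * (n : ℝ) ^ 2 ∧
          M.Decides σ T A) →
      ∀ R : ℕ, ∃ m, R < r A m) ∧
    -- 3. boundedly many states and passes
    (∀ b W p : ℕ, 2 ≤ b → ∃ c : ℝ, 0 < c ∧ ∀ A : Set ℕ, Hyp A →
      (∃ᶠ n : ℕ in atTop, ∃ (T : ℕ) (σ : Equiv.Perm (Fin n)) (M : Machine b W),
        n ≤ T ∧ T ≤ p * n ∧ M.Oblivious ∧ M.Decides σ T A) →
      ∃ᶠ m : ℕ in atTop, (m : ℝ) ^ c ≤ (r A m : ℝ)) := by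
  refine ⟨?_, ?_, ?_⟩
  · intro A b n W T f K g σ M hb hg hacc hcount hK hn hT hcond
    have h1 : ∃ m < 2 * b ^ n, 2 ^ f ≤ rep A 2 m := by
      rcases hcond with hcond | ⟨hM, hcond⟩
      · exact many_general le_rfl hg hb M σ hacc hcount hK hn hT hcond
      · exact many_oblivious le_rfl hg hb M σ hM hacc hcount hK hn hT hcond
    obtain ⟨m, hm1, hm2⟩ := h1
    exact ⟨m, hm1, hm2.trans (rep_le A m)⟩
  · intro A b hA hb hdec R
    obtain ⟨m, hm⟩ := unbounded_of_tradeoff (h := 2) (g := 3) le_rfl (by norm_num) hb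
      (eventually_cube hA hb) hdec R
    exact ⟨m, lt_of_lt_of_le hm (rep_le A m)⟩
  · intro b W p hb
    obtain ⟨c, hc, h1⟩ := growth_of_oblivious (h := 2) (g := 3) (b := b) (W := W) (p := p) le_rfl
      (by norm_num) hb
    refine ⟨c, hc, fun A hA hdec => ?_⟩
    refine (h1 A (eventually_cube hA hb) hdec).mono fun m hm => hm.trans ?_
    exact_mod_cast rep_le A m

end Pool.Agent.Results.MP_12a1af_nt.TimeSpaceTradeoff
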