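import Pool.Agent.U33.FM.Conseq
import Pool.Agent.Results.MP_12a1af_nt.TimeSpaceTradeoff

/-!
# MP_12a1af_nt: a counterexample cannot be sampled by formulas of total size `o((log N) ^ 2)`

A sampler is a function `F` of `m` random bits with values in `ℕ`, a sum `∑ c_j g_j` of integers `c_j`
times bits `g_j` (for instance the digits of the value). The cost of `g_j` is the square of the general
adversary bound (Reichardt: up to constants the square of the quantum query complexity), or `K ^ 2`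
times the number of leaves of a formula (AND and OR gates) over decision trees of depth `K`. `Λ` is the
sum of the costs.

1. If all values of `F` lie in `A ∩ [0, N)`, then `r_A(x) ≥ 2 ^ (H ^ 2 / (2 ^ 45 Λ)) / 2` for some
   `x < 2 N`, where `H` is the entropy of the value in bits.
2. If `F` is injective and a proportion `δ` of its values lies in `A`, then
   `(δ m) ^ 2 ≤ 2 ^ 52 Λ (1 + log (8 r_A(x) / δ ^ 2))` for some `x < 2 N`.
3. This is sharp: for all `L ≥ m ≥ 1` there is an injective `F` with formulas of total size `L` such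
   that the representation function of its image is at most `2 ^ (B (m ^ 2 / L + 1))`.
4. Let `A` satisfy the hypothesis of Q1 or that of Q2 (`r_A ≥ 1` from some point on, or
   `a_n ≤ C n ^ 2`), `γ > 0` and `n` large. If a sampler of cost `Λ` has its values in
   `A ∩ [0, 2 ^ n)` and takes each of them with probability at most `|A ∩ [0, 2 ^ n)| ^ (-γ)`, then
   `r_A(x) ≥ 2 ^ ((γ n) ^ 2 / (2 ^ 49 Λ)) / 2` for some `x < 2 ^ (n + 1)`.
5. In particular, `r_A` is unbounded if there are such samplers of cost at most `ε n ^ 2`, for every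
   `ε > 0` and infinitely many `n`: to sample from a counterexample costs at least `c (log N) ^ 2`.
6. If there are such samplers of cost at most `C n` for infinitely many `n`, then `r_A(x) ≥ x ^ c` for
   infinitely many `x`, where `c = γ ^ 2 / (2 ^ 51 C)`.

Method: a random restriction leaves free a proportion `q` of the input bits and keeps a proportion `q`
of the entropy; by the polynomial method all but `O(q ^ 2 Λ)` of the free bits can be given up such that
thereafter all but `O(q ^ 2 Λ)` of the `g_j` depend on one bit only; for these, flipping all bits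
leaves the sum of the values fixed. With `q` of order `H / Λ` the entropy which is left is of order
`H ^ 2 / Λ`.
-/

set_option autoImplicit false

namespace Pool.Agent.Results.MP_12a1af_nt.FormulaSampling

open Filter Pool.Agent.U33.TS Pool.Agent.U33.AS Pool.Agent.U33.FM

/-- `r_A(n)`: the number of ordered pairs `(a, b) ∈ A × A` with `a + b = n` -/
noncomputable def r (A : Set ℕ) (n : ℕ) : ℕ :=
  {p : ℕ × ℕ | p.1 ∈ A ∧ p.2 ∈ A ∧ p.1 + p.2 = n}.ncard

/-- the hypothesis of Q1, or the hypothesis of Q2 -/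
def Hyp (A : Set ℕ) : Prop :=
  (∀ᶠ x in atTop, 1 ≤ r A x) ∨
  (A.Infinite ∧ ∃ C : ℕ, ∀ n, Nat.nth (· ∈ A) n ≤ C * (n + 1) ^ 2)

theorem rep_le (A : Set ℕ) (n : ℕ) : rep A 2 n ≤ r A n := TimeSpaceTradeoff.rep_le A n

theorem r_le (A : Set ℕ) (n : ℕ) : r A n ≤ 2 * rep A 2 n := by
  classical
  have hfin : {p : ℕ × ℕ | p.1 ∈ A ∧ p.2 ∈ A ∧ p.1 + p.2 = n}.Finite := by
    apply Set.Finite.subset (Finset.finite_toSet
      (Finset.range (n + 1) ×ˢ Finset.range (n + 1)))
    rintro p ⟨_, _, hp⟩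
    rw [Finset.mem_coe, Finset.mem_product, Finset.mem_range, Finset.mem_range]
    omega
  have h1 : r A n = hfin.toFinset.card := Set.ncard_eq_toFinset_card _ hfin
  rw [h1]
  rcases hfin.toFinset.eq_empty_or_nonempty with h0 | ⟨p0, hp0⟩
  · rw [h0]
    simp
  · have hp0' : p0.1 ∈ A := by
      rw [Set.Finite.mem_toFinset] at hp0
      exact hp0.1
    have h2 := rep_of_ordered (A := A) (h := 2) le_rfl hfin.toFinset n p0.1 hp0' (by
      intro p hp
      rw [Set.Finite.mem_toFinset] at hp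
      exact hp)
    simpa using h2

/-- a proportion of the inputs -/
noncomputable def prop {m : ℕ} (F : (Fin m → Bool) → ℕ) (A : Set ℕ) : ℝ :=
  (({y | F y ∈ A} : Set (Fin m → Bool)).ncard : ℝ) / 2 ^ m

theorem result :
    -- formulas are cheap
    (∀ (m : ℕ) (Λ : ℝ) (F : (Fin m → Bool) → ℕ), Formulas m Λ F → Cheap m Λ F) ∧
    -- 1. the entropy
    (∀ (A : Set ℕ) (m N : ℕ) (Λ : ℝ) (F : (Fin m → Bool) → ℕ), Cheap m Λ F →
      (∀ y, F y ∈ A ∧ F y < N) →
      ∃ x < 2 * N, (2 : ℝ) ^ (entropy F ^ 2 / (2 ^ 45 * Λ)) ≤ 2 * r A x) ∧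
    -- 2. dense sets of inputs
    (∀ (A : Set ℕ) (m N : ℕ) (Λ : ℝ) (F : (Fin m → Bool) → ℕ), Cheap m Λ F →
      Function.Injective F → (∀ y, F y < N) → 0 < prop F A →
      ∃ x < 2 * N, (prop F A * m) ^ 2 ≤
        2 ^ 52 * Λ * (1 + Real.log (8 * r A x / prop F A ^ 2))) ∧
    -- 3. sharpness
    (∃ B : ℕ, ∀ m L : ℕ, 1 ≤ m → m ≤ L → ∃ F : (Fin m → Bool) → ℕ,
      Function.Injective F ∧ Formulas m L F ∧
        ∀ x, r (Set.range F) x ≤ 2 ^ (B * (m ^ 2 / L + 1))) ∧
    -- 4. samplers of the elements of thick sets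
    (∀ A : Set ℕ, Hyp A → ∀ γ : ℝ, 0 < γ → ∀ᶠ n : ℕ in atTop, ∀ (m : ℕ) (Λ : ℝ)
      (F : (Fin m → Bool) → ℕ), Cheap m Λ F → Samples A n γ F →
      ∃ x < 2 * 2 ^ n, (2 : ℝ) ^ ((γ * n) ^ 2 / (2 ^ 49 * Λ)) ≤ 2 * r A x) ∧
    -- 5. cost `o(n ^ 2)`
    (∀ A : Set ℕ, Hyp A → ∀ γ : ℝ, 0 < γ →
      (∀ ε : ℝ, 0 < ε → ∃ᶠ n : ℕ in atTop, ∃ (m : ℕ) (F : (Fin m → Bool) → ℕ),
        Cheap m (ε * (n : ℝ) ^ 2) F ∧ Samples A n γ F) →
      ∀ R : ℕ, ∃ x, R < r A x) ∧
    -- 6. cost `O(n)`
    (∀ A : Set ℕ, Hyp A → ∀ γ C : ℝ, 0 < γ → 0 < C →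
      (∃ᶠ n : ℕ in atTop, ∃ (m : ℕ) (F : (Fin m → Bool) → ℕ),
        Cheap m (C * n) F ∧ Samples A n γ F) →
      ∃ᶠ x : ℕ in atTop, (x : ℝ) ^ (γ ^ 2 / (2 ^ 51 * C)) ≤ (r A x : ℝ)) := by
  classical
  refine ⟨fun m Λ F h => h.cheap, ?_, ?_, ?_, ?_, ?_, ?_⟩
  · intro A m N Λ F hF hA
    obtain ⟨x, hx1, hx2⟩ := cheap (h := 2) le_rfl hF (fun y => (hA y).1)
    refine ⟨x, hx1 N fun y => (hA y).2, hx2.trans ?_⟩
    have : (rep A 2 x : ℝ) ≤ r A x := by exact_mod_cast rep_le A x
    linarith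
  · intro A m N Λ F hF hinj hN hpos
    have hδ : prop F A = ((Finset.univ.filter fun x => F x ∈ A).card : ℝ) / 2 ^ m := by
      unfold prop
      congr 2
      rw [← Set.ncard_coe_finset]
      congr 1
      ext x
      simp
    obtain ⟨x, hx1, hx2⟩ := cheap_dense (h := 2) le_rfl hF hinj hδ hpos
    refine ⟨x, hx1 N hN, hx2.trans ?_⟩
    have hΛ : 0 ≤ Λ := by
      obtain ⟨s, c, g, C, hg, hΛ, -⟩ := hF
      refine le_trans ?_ hΛ
      exact Finset.sum_nonneg fun j _ => Nat.cast_nonneg _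
    apply mul_le_mul_of_nonneg_left _ (mul_nonneg (by norm_num) hΛ)
    have h1 : (rep A 2 x : ℝ) ≤ r A x := by exact_mod_cast rep_le A x
    rcases Nat.eq_zero_or_pos (rep A 2 x) with h0 | h0
    · rw [h0]
      simp only [Nat.cast_zero, mul_zero, zero_div, Real.log_zero, add_zero]
      rcases Nat.eq_zero_or_pos (r A x) with h2 | h2
      · rw [h2]
        simp
      · have h3 : (1 : ℝ) ≤ r A x := by exact_mod_cast h2
        have h4 : prop F A ≤ 1 := by
          rw [hδ, div_le_one (by positivity)]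
          have : (Finset.univ.filter fun x => F x ∈ A).card ≤ 2 ^ m := by
            refine (Finset.card_le_univ _).trans ?_
            simp
          exact_mod_cast this
        have h5 : 0 ≤ Real.log (8 * r A x / prop F A ^ 2) := by
          apply Real.log_nonneg
          rw [le_div_iff₀ (by positivity)]
          have : prop F A ^ 2 ≤ 1 := pow_le_one₀ hpos.le h4
          linarith
        linarith
    · have h2 : (0 : ℝ) < rep A 2 x := by exact_mod_cast h0
      have h3 := Real.log_le_log (by positivity : 0 < 8 * (rep A 2 x : ℝ) / prop F A ^ 2)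
        (div_le_div_of_nonneg_right (by linarith : 8 * (rep A 2 x : ℝ) ≤ 8 * r A x)
          (by positivity : 0 ≤ prop F A ^ 2))
      linarith
  · refine ⟨16 * 2 * 2 ^ 2 + 1, fun m L hm hL => ?_⟩
    obtain ⟨F, h1, h2, h3⟩ := sharp_all 2 m L hm hL
    refine ⟨F, h1, h2, fun x => (r_le _ x).trans ?_⟩
    have h4 := h3 x
    calc 2 * rep (Set.range F) 2 x ≤ 2 * 2 ^ (16 * 2 * 2 ^ 2 * (m ^ 2 / L + 1)) :=
          Nat.mul_le_mul_left _ h4
      _ = 2 ^ (16 * 2 * 2 ^ 2 * (m ^ 2 / L + 1) + 1) := (pow_succ' _ _).symm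
      _ ≤ _ := by
          apply Nat.pow_le_pow_right (by norm_num)
          generalize m ^ 2 / L = d
          ring_nf
          omega
  · intro A hA γ hγ
    filter_upwards [quant (h := 2) le_rfl (TimeSpaceTradeoff.eventually_cube (b := 2) hA le_rfl)
      hγ] with n hn m Λ F hF hS
    obtain ⟨x, hx1, hx2⟩ := hn m Λ F hF hS
    refine ⟨x, hx1, hx2.trans ?_⟩
    have : (rep A 2 x : ℝ) ≤ r A x := by exact_mod_cast rep_le A x
    linarith
  · intro A hA γ hγ hs R
    obtain ⟨x, hx⟩ := unbounded (h := 2) le_rfl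
      (TimeSpaceTradeoff.eventually_cube (b := 2) hA le_rfl) hγ hs R
    exact ⟨x, lt_of_lt_of_le hx (rep_le A x)⟩
  · intro A hA γ C hγ hC hs
    refine (power (TimeSpaceTradeoff.eventually_cube (b := 2) hA le_rfl) hγ hC hs).mono
      fun x hx => hx.trans ?_
    exact_mod_cast rep_le A x

end Pool.Agent.Results.MP_12a1af_nt.FormulaSampling
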